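import Mathlib

/-!
# Core of the lower bound on the stack-number

Everything here is used only in proofs.
-/

namespace Pool.Agent.StackQueue

/-! ## Part 1: bad triangles -/

section Core

variable (N : ℕ) (pos : ℕ → ℕ)

/-- The grid point `(x,h)` is under the arc joining positions `p < q`. -/
def cov (x h p q : ℕ) : Prop := p < x ∧ x ≤ q ∧ h < (q - p) * N + p

instance (x h p q : ℕ) : Decidable (cov N x h p q) := by unfold cov; infer_instance

/-- Indicator of being under an arc. -/
def chi (x h i j : ℕ) : ZMod 2 :=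
  if cov N x h (min (pos i) (pos j)) (max (pos i) (pos j)) then 1 else 0

lemma chi_comm (x h i j : ℕ) : chi N pos x h i j = chi N pos x h j i := by
  unfold chi; rw [min_comm, max_comm]

lemma chi_of_lt {x h i j : ℕ} (hij : pos i < pos j) :
    chi N pos x h i j = if cov N x h (pos i) (pos j) then 1 else 0 := by
  unfold chi; rw [min_eq_left hij.le, max_eq_right hij.le]

/-- strict monotonicity of heights under inclusion -/
lemma height_mono {p q p' q' : ℕ} (hN : p < N) (h4 : q - p < q' - p') : (q - p) * N + p < (q' - p') * N + p' := by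
  have : (q - p + 1) * N ≤ (q' - p') * N := Nat.mul_le_mul_right _ h4
  rw [Nat.add_mul, one_mul] at this
  omega

/-- A bad triangle, with vertices listed by increasing position. -/
structure Bad (adj : ℕ → ℕ → Prop) (x h r1 r2 r3 : ℕ) : Prop where
  a12 : adj r1 r2
  a23 : adj r2 r3
  a13 : adj r1 r3
  p12 : pos r1 < pos r2
  p23 : pos r2 < pos r3
  c13 : cov N x h (pos r1) (pos r3)
  c12 : ¬ cov N x h (pos r1) (pos r2)
  c23 : ¬ cov N x h (pos r2) (pos r3)

/-- Two vertex-disjoint bad triangles have different colour triples. -/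
lemma bad_disjoint {s : ℕ} {adj : ℕ → ℕ → Prop} {col : ℕ → ℕ → Fin s}
    (hpos : ∀ i j, adj i j → pos i < N ∧ pos j < N)
    (hcross : ∀ i j i' j', adj i j → adj i' j' → pos i < pos i' → pos i' < pos j →
      pos j < pos j' → col i j ≠ col i' j')
    {x h r1 r2 r3 t1 t2 t3 : ℕ} (hr : Bad N pos adj x h r1 r2 r3)
    (ht : Bad N pos adj x h t1 t2 t3)
    (e12 : col r1 r2 = col t1 t2) (e23 : col r2 r3 = col t2 t3) (e13 : col r1 r3 = col t1 t3)
    (d11 : pos r1 ≠ pos t1) (d12 : pos r1 ≠ pos t2)
    (d21 : pos r2 ≠ pos t1) (d22 : pos r2 ≠ pos t2) (d23 : pos r2 ≠ pos t3)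
    (d32 : pos r3 ≠ pos t2) (d33 : pos r3 ≠ pos t3) : False := by
  -- reduce to the case `pos r1 < pos t1`
  have key : ∀ {r1 r2 r3 t1 t2 t3 : ℕ}, Bad N pos adj x h r1 r2 r3 → Bad N pos adj x h t1 t2 t3 →
      col r1 r2 = col t1 t2 → col r2 r3 = col t2 t3 → col r1 r3 = col t1 t3 →
      pos r2 ≠ pos t1 → pos r2 ≠ pos t2 → pos r2 ≠ pos t3 → pos r3 ≠ pos t3 →
      pos r1 < pos t1 → False := by
    clear hr ht e12 e23 e13 d11 d12 d21 d22 d23 d32 d33 r1 r2 r3 t1 t2 t3
    intro r1 r2 r3 t1 t2 t3 hr ht e12 e23 e13 d21 d22 d23 d33 hlt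
    obtain ⟨ra12, ra23, ra13, rp12, rp23, rc13, rc12, rc23⟩ := hr
    obtain ⟨ta12, ta23, ta13, tp12, tp23, tc13, tc12, tc23⟩ := ht
    have hN1 := hpos _ _ ta13
    have hN2 := hpos _ _ ra13
    obtain ⟨h1, h2, h3⟩ := rc13
    obtain ⟨h4, h5, h6⟩ := tc13
    -- outer arcs are nested
    have hout : pos t3 < pos r3 := by
      by_contra hcon
      have : pos r3 < pos t3 := by omega
      exact hcross _ _ _ _ ra13 ta13 hlt (by omega) this e13
    rcases lt_or_gt_of_ne d21 with hA | hA
    · -- r2 < t1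
      apply rc23
      refine ⟨by omega, by omega, ?_⟩
      have := height_mono N (p := pos t1) (q := pos t3) (p' := pos r2) (q' := pos r3)
        hN1.1 (by omega)
      omega
    · rcases lt_or_gt_of_ne d23 with hB | hB
      · -- t1 < r2 < t3
        have h7 : pos t2 < pos r2 := by
          by_contra hcon
          have : pos r2 < pos t2 := by omega
          exact hcross _ _ _ _ ra12 ta12 hlt hA this e12
        exact hcross _ _ _ _ ta23 ra23 h7 hB hout e23.symm
      · -- t3 < r2
        apply rc12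
        refine ⟨by omega, by omega, ?_⟩
        have := height_mono N (p := pos t1) (q := pos t3) (p' := pos r1) (q' := pos r2)
          hN1.1 (by omega)
        omega
  rcases lt_or_gt_of_ne d11 with hlt | hlt
  · exact key hr ht e12 e23 e13 d21 d22 d23 d33 hlt
  · exact key ht hr e12.symm e23.symm e13.symm d12.symm d22.symm d32.symm d33.symm hlt

lemma cov_mono_left {x h p q q' : ℕ} (hN : p < N) (h1 : q ≤ q')
    (hc : cov N x h p q) : cov N x h p q' := by
  obtain ⟨h2, h3, h4⟩ := hc
  refine ⟨h2, by omega, ?_⟩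
  rcases Nat.lt_or_ge q q' with h5 | h5
  · have := height_mono N (p := p) (q := q) (p' := p) (q' := q') hN (by omega)
    omega
  · have : q = q' := by omega
    subst this; exact h4

lemma cov_mono_right {x h p p' q : ℕ} (hN : p < N) (h1 : p' ≤ p)
    (hc : cov N x h p q) : cov N x h p' q := by
  obtain ⟨h2, h3, h4⟩ := hc
  refine ⟨by omega, by omega, ?_⟩
  rcases Nat.lt_or_ge p' p with h5 | h5
  · have := height_mono N (p := p) (q := q) (p' := p') (q' := q) hN (by omega)
    omega
  · have : p = p' := by omega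
    subst this; exact h4

/-- The sum of `chi` around a triangle. -/
def tsum (x h i j k : ℕ) : ZMod 2 :=
  chi N pos x h i j + chi N pos x h j k + chi N pos x h i k

lemma bad_of_sorted {adj : ℕ → ℕ → Prop} (hpos : ∀ i j, adj i j → pos i < N ∧ pos j < N)
    {x h r1 r2 r3 : ℕ} (a12 : adj r1 r2) (a23 : adj r2 r3) (a13 : adj r1 r3)
    (p12 : pos r1 < pos r2) (p23 : pos r2 < pos r3) (hs : tsum N pos x h r1 r2 r3 ≠ 0) :
    Bad N pos adj x h r1 r2 r3 := by
  have hN1 := hpos _ _ a12
  have hN2 := hpos _ _ a23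
  unfold tsum at hs
  rw [chi_of_lt N pos p12, chi_of_lt N pos p23, chi_of_lt N pos (p12.trans p23)] at hs
  by_cases c12 : cov N x h (pos r1) (pos r2)
  · have c13 : cov N x h (pos r1) (pos r3) := cov_mono_left N hN1.1 p23.le c12
    have c23 : ¬ cov N x h (pos r2) (pos r3) := by
      intro hc
      have := c12.2.1
      have := hc.1
      omega
    rw [if_pos c12, if_neg c23, if_pos c13] at hs
    exact absurd (by decide) hs
  · by_cases c23 : cov N x h (pos r2) (pos r3)
    · have c13 : cov N x h (pos r1) (pos r3) := cov_mono_right N hN2.1 p12.le c23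
      rw [if_neg c12, if_pos c23, if_pos c13] at hs
      exact absurd (by decide) hs
    · by_cases c13 : cov N x h (pos r1) (pos r3)
      · exact ⟨a12, a23, a13, p12, p23, c13, c12, c23⟩
      · rw [if_neg c12, if_neg c23, if_neg c13] at hs
        exact absurd (by decide) hs

lemma tsum_swap12 (x h i j k : ℕ) : tsum N pos x h i j k = tsum N pos x h j i k := by
  unfold tsum; rw [chi_comm N pos x h i j]; ring

lemma tsum_swap23 (x h i j k : ℕ) : tsum N pos x h i j k = tsum N pos x h i k j := by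
  unfold tsum; rw [chi_comm N pos x h j k]; ring

/-- A triangle with non-zero sum is bad after sorting its vertices. -/
lemma exists_bad {adj : ℕ → ℕ → Prop} (hpos : ∀ i j, adj i j → pos i < N ∧ pos j < N)
    (hsymm : ∀ i j, adj i j → adj j i) (hne : ∀ i j, adj i j → pos i ≠ pos j)
    {x h i j k : ℕ} (a12 : adj i j) (a23 : adj j k) (a13 : adj i k)
    (hs : tsum N pos x h i j k ≠ 0) :
    ∃ r1 r2 r3, Bad N pos adj x h r1 r2 r3 ∧ (r1 = i ∨ r1 = j ∨ r1 = k) ∧
      (r2 = i ∨ r2 = j ∨ r2 = k) ∧ (r3 = i ∨ r3 = j ∨ r3 = k) := by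
  have b12 := hsymm _ _ a12
  have b23 := hsymm _ _ a23
  have b13 := hsymm _ _ a13
  rcases lt_or_gt_of_ne (hne _ _ a12) with h1 | h1 <;>
  rcases lt_or_gt_of_ne (hne _ _ a23) with h2 | h2 <;>
  rcases lt_or_gt_of_ne (hne _ _ a13) with h3 | h3
  · exact ⟨i, j, k, bad_of_sorted N pos hpos a12 a23 a13 h1 h2 hs, by simp⟩
  · omega
  · -- i < k < j
    rw [tsum_swap23] at hs
    exact ⟨i, k, j, bad_of_sorted N pos hpos a13 b23 a12 h3 h2 hs, by simp⟩
  · -- k < i < j
    rw [tsum_swap23, tsum_swap12] at hs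
    exact ⟨k, i, j, bad_of_sorted N pos hpos b13 a12 b23 h3 h1 hs, by simp⟩
  · -- j < i < k
    rw [tsum_swap12] at hs
    exact ⟨j, i, k, bad_of_sorted N pos hpos b12 a13 a23 h1 h3 hs, by simp⟩
  · -- j < k < i
    rw [tsum_swap12, tsum_swap23] at hs
    exact ⟨j, k, i, bad_of_sorted N pos hpos a23 b13 b12 h2 h3 hs, by simp⟩
  · omega
  · -- k < j < i
    rw [tsum_swap12, tsum_swap23, tsum_swap12] at hs
    exact ⟨k, j, i, bad_of_sorted N pos hpos b23 b12 b13 h2 h1 hs, by simp⟩

end Core

/-! ## Part 2: the graph, columns and floors -/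

/-- Encoding of the grid point `(a,b,z)`. -/
def enc (n a b z : ℕ) : ℕ := (a * n + b) * n + z

lemma enc_inj {n a b z a' b' z' : ℕ} (hb : b < n) (hz : z < n) (hb' : b' < n) (hz' : z' < n)
    (h : enc n a b z = enc n a' b' z') : a = a' ∧ b = b' ∧ z = z' := by
  unfold enc at h
  have hn : 0 < n := by omega
  have h1 : z = z' := by
    have := congrArg (· % n) h
    simp only [Nat.mul_add_mod_self_right] at this
    rwa [Nat.mod_eq_of_lt hz, Nat.mod_eq_of_lt hz'] at this
  subst h1
  have h2 : a * n + b = a' * n + b' := by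
    have : (a * n + b) * n = (a' * n + b') * n := by omega
    exact Nat.eq_of_mul_eq_mul_right hn this
  have h3 : b = b' := by
    have := congrArg (· % n) h2
    simp only [Nat.mul_add_mod_self_right] at this
    rwa [Nat.mod_eq_of_lt hb, Nat.mod_eq_of_lt hb'] at this
  subst h3
  have h4 : a * n = a' * n := by omega
  exact ⟨Nat.eq_of_mul_eq_mul_right hn h4, rfl, rfl⟩

lemma enc_lt {n a b z : ℕ} (ha : a < n) (hb : b < n) (hz : z < n) : enc n a b z < n * n * n := by
  unfold enc
  have h1 : a * n + b < n * n := by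
    calc a * n + b < a * n + n := by omega
      _ = (a + 1) * n := by ring
      _ ≤ n * n := Nat.mul_le_mul_right _ ha
  calc (a * n + b) * n + z < (a * n + b) * n + n := by omega
      _ = (a * n + b + 1) * n := by ring
      _ ≤ n * n * n := Nat.mul_le_mul_right _ h1

/-- Forward edges. -/
def fwd (n i j : ℕ) : Prop :=
  (j = i + n ∨ j = i + n + 1) ∨ (j = i + n * n ∨ j = i + n * n + 1) ∨
    (j = i + n * n + n ∨ j = i + n * n + n + 1)

/-- Adjacency on `{0,…,n³-1}`. -/
def adjN (n i j : ℕ) : Prop := i < n * n * n ∧ j < n * n * n ∧ (fwd n i j ∨ fwd n j i)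

lemma adjN_symm {n i j : ℕ} (h : adjN n i j) : adjN n j i := ⟨h.2.1, h.1, h.2.2.symm⟩

/-- `r` is a vertex in a column at Chebyshev distance at most `1` from the column `(a,b)`. -/
def near (n a b r : ℕ) : Prop :=
  ∃ a1 b1 z1, r = enc n a1 b1 z1 ∧ a1 < n ∧ b1 < n ∧ z1 < n ∧
    a1 ≤ a + 1 ∧ a ≤ a1 + 1 ∧ b1 ≤ b + 1 ∧ b ≤ b1 + 1

lemma near_lt {n a b r : ℕ} (h : near n a b r) : r < n * n * n := by
  obtain ⟨a1, b1, z1, rfl, h1, h2, h3, -⟩ := h
  exact enc_lt h1 h2 h3

lemma near_disjoint {n a b a' b' r : ℕ} (h : near n a b r) (h' : near n a' b' r)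
    (ea : a % 3 = a' % 3) (eb : b % 3 = b' % 3) : a = a' ∧ b = b' := by
  obtain ⟨a1, b1, z1, rfl, h1, h2, h3, h4, h5, h6, h7⟩ := h
  obtain ⟨a2, b2, z2, he, g1, g2, g3, g4, g5, g6, g7⟩ := h'
  obtain ⟨rfl, rfl, rfl⟩ := enc_inj h2 h3 g2 g3 he
  omega

section Layout

variable {n s : ℕ} {pos : ℕ → ℕ} {col : ℕ → ℕ → Fin s}

/-- The hypotheses on a putative stack layout. -/
structure Layout (n s : ℕ) (pos : ℕ → ℕ) (col : ℕ → ℕ → Fin s) : Prop where
  inj : ∀ i j, i < n * n * n → j < n * n * n → pos i = pos j → i = j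
  lt : ∀ i, i < n * n * n → pos i < n * n * n
  cross : ∀ i j i' j', adjN n i j → adjN n i' j' → pos i < pos i' → pos i' < pos j →
      pos j < pos j' → col i j ≠ col i' j'

/-- Columns near which there is a bad triangle. -/
noncomputable def badCols (n : ℕ) (pos : ℕ → ℕ) (x h : ℕ) : Finset (ℕ × ℕ) := by
  classical
  exact ((Finset.range n) ×ˢ (Finset.range n)).filter (fun v =>
    ∃ r1 r2 r3, Bad (n * n * n) pos (adjN n) x h r1 r2 r3 ∧ near n v.1 v.2 r1 ∧
      near n v.1 v.2 r2 ∧ near n v.1 v.2 r3)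

lemma mem_badCols {x h : ℕ} {v : ℕ × ℕ} : v ∈ badCols n pos x h ↔ (v.1 < n ∧ v.2 < n) ∧
    ∃ r1 r2 r3, Bad (n * n * n) pos (adjN n) x h r1 r2 r3 ∧ near n v.1 v.2 r1 ∧
      near n v.1 v.2 r2 ∧ near n v.1 v.2 r3 := by
  classical
  unfold badCols
  simp only [Finset.mem_filter, Finset.mem_product, Finset.mem_range]

lemma layout_disjoint (hL : Layout n s pos col) {x h r1 r2 r3 t1 t2 t3 : ℕ}
    (hr : Bad (n * n * n) pos (adjN n) x h r1 r2 r3)
    (ht : Bad (n * n * n) pos (adjN n) x h t1 t2 t3)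
    (e12 : col r1 r2 = col t1 t2) (e23 : col r2 r3 = col t2 t3) (e13 : col r1 r3 = col t1 t3)
    (d11 : r1 ≠ t1) (d12 : r1 ≠ t2) (d21 : r2 ≠ t1) (d22 : r2 ≠ t2) (d23 : r2 ≠ t3)
    (d32 : r3 ≠ t2) (d33 : r3 ≠ t3) : False := by
  have q : ∀ {i j}, i < n * n * n → j < n * n * n → i ≠ j → pos i ≠ pos j :=
    fun hi hj hij he => hij (hL.inj _ _ hi hj he)
  have hr1 := hr.a12.1
  have hr2 := hr.a12.2.1
  have hr3 := hr.a23.2.1
  have ht1 := ht.a12.1
  have ht2 := ht.a12.2.1
  have ht3 := ht.a23.2.1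
  exact bad_disjoint (n * n * n) pos (adj := adjN n) (col := col)
    (fun i j hij => ⟨hL.lt _ hij.1, hL.lt _ hij.2.1⟩) hL.cross hr ht e12 e23 e13
    (q hr1 ht1 d11) (q hr1 ht2 d12) (q hr2 ht1 d21) (q hr2 ht2 d22) (q hr2 ht3 d23)
    (q hr3 ht2 d32) (q hr3 ht3 d33)

lemma card_badCols (hL : Layout n s pos col) (x h : ℕ) :
    (badCols n pos x h).card ≤ 9 * s ^ 3 := by
  classical
  have hex : ∀ v : ℕ × ℕ, ∃ r : ℕ × ℕ × ℕ, v ∈ badCols n pos x h →
      Bad (n * n * n) pos (adjN n) x h r.1 r.2.1 r.2.2 ∧ near n v.1 v.2 r.1 ∧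
      near n v.1 v.2 r.2.1 ∧ near n v.1 v.2 r.2.2 := by
    intro v
    by_cases hv : v ∈ badCols n pos x h
    · obtain ⟨-, r1, r2, r3, h1⟩ := mem_badCols.1 hv
      exact ⟨(r1, r2, r3), fun _ => h1⟩
    · exact ⟨(0, 0, 0), fun h => absurd h hv⟩
  choose R hR using hex
  let f : ℕ × ℕ → ℕ × ℕ × Fin s × Fin s × Fin s := fun v =>
    (v.1 % 3, v.2 % 3, col (R v).1 (R v).2.1, col (R v).2.1 (R v).2.2, col (R v).1 (R v).2.2)
  let T : Finset (ℕ × ℕ × Fin s × Fin s × Fin s) :=
    Finset.range 3 ×ˢ Finset.range 3 ×ˢ Finset.univ ×ˢ Finset.univ ×ˢ Finset.univ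
  have hT : T.card = 9 * s ^ 3 := by
    simp only [T, Finset.card_product, Finset.card_range, Finset.card_univ, Fintype.card_fin]
    ring
  rw [← hT]
  apply Finset.card_le_card_of_injOn f
  · intro v hv
    simp only [T, f, Finset.coe_product, Set.mem_prod, Finset.mem_coe, Finset.mem_range,
      Finset.mem_univ, and_true]
    exact ⟨Nat.mod_lt _ (by norm_num), Nat.mod_lt _ (by norm_num)⟩
  · intro v hv v' hv' hf
    simp only [f, Prod.mk.injEq] at hf
    obtain ⟨e1, e2, e12, e23, e13⟩ := hf
    obtain ⟨b, n1, n2, n3⟩ := hR v hv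
    obtain ⟨b', n1', n2', n3'⟩ := hR v' hv'
    by_contra hne
    have hd : ∀ {r t}, near n v.1 v.2 r → near n v'.1 v'.2 t → r ≠ t := by
      intro r t h1 h2 h3
      subst h3
      obtain ⟨h4, h5⟩ := near_disjoint h1 h2 e1 e2
      exact hne (Prod.ext h4 h5)
    exact layout_disjoint hL b b' e12 e23 e13 (hd n1 n1') (hd n1 n2') (hd n2 n1') (hd n2 n2')
      (hd n2 n3') (hd n3 n2') (hd n3 n3')

/-- There is a floor without bad triangles. -/
lemma exists_floor (hL : Layout n s pos col) (hn : s ^ 3 < n) (x h : ℕ) :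
    ∃ z0 < n, ∀ r1 r2 r3, Bad (n * n * n) pos (adjN n) x h r1 r2 r3 →
      ¬ ((∃ a b, b < n ∧ r1 = enc n a b z0) ∧ (∃ a b, b < n ∧ r2 = enc n a b z0) ∧
        (∃ a b, b < n ∧ r3 = enc n a b z0)) := by
  classical
  by_contra hcon
  push Not at hcon
  choose! r1 r2 r3 hb hf1 hf2 hf3 using hcon
  let f : ℕ → Fin s × Fin s × Fin s := fun z =>
    (col (r1 z) (r2 z), col (r2 z) (r3 z), col (r1 z) (r3 z))
  have hcard : (Finset.univ : Finset (Fin s × Fin s × Fin s)).card < (Finset.range n).card := by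
    simp only [Finset.card_univ, Fintype.card_prod, Fintype.card_fin, Finset.card_range]
    calc s * (s * s) = s ^ 3 := by ring
      _ < n := hn
  obtain ⟨z, hz, z', hz', hne, he⟩ := Finset.exists_ne_map_eq_of_card_lt_of_maps_to hcard
    (f := f) (fun _ _ => Finset.mem_coe.2 (Finset.mem_univ _))
  simp only [Finset.mem_range] at hz hz'
  simp only [f, Prod.mk.injEq] at he
  obtain ⟨e12, e23, e13⟩ := he
  have hd : ∀ {r t}, (∃ a b, b < n ∧ r = enc n a b z) → (∃ a b, b < n ∧ t = enc n a b z') →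
      r ≠ t := by
    rintro r t ⟨a, b, hb1, rfl⟩ ⟨a', b', hb2, rfl⟩ h3
    exact hne (enc_inj hb1 hz hb2 hz' h3).2.2
  exact layout_disjoint hL (hb z hz) (hb z' hz') e12 e23 e13
    (hd (hf1 z hz) (hf1 z' hz')) (hd (hf1 z hz) (hf2 z' hz'))
    (hd (hf2 z hz) (hf1 z' hz')) (hd (hf2 z hz) (hf2 z' hz'))
    (hd (hf2 z hz) (hf3 z' hz')) (hd (hf3 z hz) (hf2 z' hz')) (hd (hf3 z hz) (hf3 z' hz'))

end Layout

lemma char2 (a : ZMod 2) : a + a = 0 := CharTwo.add_self_eq_zero a

section Local

variable {n s : ℕ} {pos : ℕ → ℕ} {col : ℕ → ℕ → Fin s}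

lemma adjE {n a b z z' : ℕ} (ha : a + 1 < n) (hb : b < n) (hz' : z' < n)
    (h : z' = z ∨ z' = z + 1) : adjN n (enc n a b z) (enc n (a + 1) b z') := by
  refine ⟨enc_lt (by omega) hb (by omega), enc_lt ha hb hz', Or.inl (Or.inr (Or.inl ?_))⟩
  rcases h with rfl | rfl
  · left; unfold enc; ring
  · right; unfold enc; ring

lemma adjF {n a b z z' : ℕ} (ha : a < n) (hb : b + 1 < n) (hz' : z' < n)
    (h : z' = z ∨ z' = z + 1) : adjN n (enc n a b z) (enc n a (b + 1) z') := by
  refine ⟨enc_lt (by omega) (by omega) (by omega), enc_lt ha hb hz', Or.inl (Or.inl ?_)⟩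
  rcases h with rfl | rfl
  · left; unfold enc; ring
  · right; unfold enc; ring

lemma adjD {n a b z z' : ℕ} (ha : a + 1 < n) (hb : b + 1 < n) (hz' : z' < n)
    (h : z' = z ∨ z' = z + 1) : adjN n (enc n a b z) (enc n (a + 1) (b + 1) z') := by
  refine ⟨enc_lt (by omega) (by omega) (by omega), enc_lt ha hb hz',
    Or.inl (Or.inr (Or.inr ?_))⟩
  rcases h with rfl | rfl
  · left; unfold enc; ring
  · right; unfold enc; ring

lemma pos_ne (hL : Layout n s pos col) {i j : ℕ} (h : adjN n i j) : pos i ≠ pos j := by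
  intro he
  have := hL.inj _ _ h.1 h.2.1 he
  subst this
  have h1 := h.1
  have hn : 0 < n := by
    rcases Nat.eq_zero_or_pos n with rfl | h0
    · simp at h1
    · exact h0
  have hnn : 0 < n * n := Nat.mul_pos hn hn
  rcases h.2.2 with h2 | h2 <;> unfold fwd at h2 <;> omega

lemma tri_good (hL : Layout n s pos col) {x h a b i j k : ℕ} (ha : a < n) (hb : b < n)
    (hg : (a, b) ∉ badCols n pos x h) (hi : near n a b i) (hj : near n a b j)
    (hk : near n a b k) (hij : adjN n i j) (hjk : adjN n j k) (hik : adjN n i k) :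
    chi (n * n * n) pos x h i j + chi (n * n * n) pos x h j k + chi (n * n * n) pos x h i k = 0 := by
  by_contra hcon
  obtain ⟨r1, r2, r3, hB, h1, h2, h3⟩ := exists_bad (n * n * n) pos (adj := adjN n)
    (fun i j hij => ⟨hL.lt _ hij.1, hL.lt _ hij.2.1⟩) (fun i j h => adjN_symm h)
    (fun i j h => pos_ne hL h) hij hjk hik hcon
  have hq : ∀ r, (r = i ∨ r = j ∨ r = k) → near n a b r := by
    rintro r (rfl | rfl | rfl) <;> assumption
  exact hg (mem_badCols.2 ⟨⟨ha, hb⟩, r1, r2, r3, hB, hq _ h1, hq _ h2, hq _ h3⟩)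

lemma near_mk {n a b a1 b1 z1 : ℕ} (h1 : a1 < n) (h2 : b1 < n) (h3 : z1 < n)
    (h4 : a1 ≤ a + 1) (h5 : a ≤ a1 + 1) (h6 : b1 ≤ b + 1) (h7 : b ≤ b1 + 1) :
    near n a b (enc n a1 b1 z1) := ⟨a1, b1, z1, rfl, h1, h2, h3, h4, h5, h6, h7⟩

/-- The vertical value at the column `(a,b)` between heights `z` and `z+1`. -/
def eps (n : ℕ) (pos : ℕ → ℕ) (x h a b z : ℕ) : ZMod 2 :=
  chi (n * n * n) pos x h (enc n a b z) (enc n (a + 1) (b + 1) (z + 1)) +
  chi (n * n * n) pos x h (enc n a b (z + 1)) (enc n (a + 1) (b + 1) (z + 1))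

lemma eps_Eplus (hL : Layout n s pos col) {x h a b z : ℕ} (ha : a + 1 < n) (hb : b + 1 < n)
    (hz : z + 1 < n) (hg : (a, b) ∉ badCols n pos x h) :
    chi (n * n * n) pos x h (enc n a b z) (enc n (a + 1) b (z + 1)) +
    chi (n * n * n) pos x h (enc n a b (z + 1)) (enc n (a + 1) b (z + 1)) =
      eps n pos x h a b z := by
  have h1 := tri_good hL (x := x) (h := h) (a := a) (b := b) (i := enc n a b z)
    (j := enc n (a + 1) b (z + 1)) (k := enc n (a + 1) (b + 1) (z + 1))
    (by omega) (by omega) hg (near_mk (by omega) (by omega) (by omega) (by omega) (by omega)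
      (by omega) (by omega)) (near_mk (by omega) (by omega) (by omega) (by omega) (by omega)
      (by omega) (by omega)) (near_mk (by omega) (by omega) (by omega) (by omega) (by omega)
      (by omega) (by omega)) (adjE (by omega) (by omega) (by omega) (by omega))
      (adjF (by omega) (by omega) (by omega) (by omega))
      (adjD (by omega) (by omega) (by omega) (by omega))
  have h2 := tri_good hL (x := x) (h := h) (a := a) (b := b) (i := enc n a b (z + 1))
    (j := enc n (a + 1) b (z + 1)) (k := enc n (a + 1) (b + 1) (z + 1))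
    (by omega) (by omega) hg (near_mk (by omega) (by omega) (by omega) (by omega) (by omega)
      (by omega) (by omega)) (near_mk (by omega) (by omega) (by omega) (by omega) (by omega)
      (by omega) (by omega)) (near_mk (by omega) (by omega) (by omega) (by omega) (by omega)
      (by omega) (by omega)) (adjE (by omega) (by omega) (by omega) (by omega))
      (adjF (by omega) (by omega) (by omega) (by omega))
      (adjD (by omega) (by omega) (by omega) (by omega))
  unfold eps
  have h3 : (2 : ZMod 2) = 0 := rfl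
  linear_combination h1 + h2 -
    (chi (n * n * n) pos x h (enc n (a + 1) b (z + 1)) (enc n (a + 1) (b + 1) (z + 1)) +
     chi (n * n * n) pos x h (enc n a b z) (enc n (a + 1) (b + 1) (z + 1)) +
     chi (n * n * n) pos x h (enc n a b (z + 1)) (enc n (a + 1) (b + 1) (z + 1))) * h3

lemma eps_Fplus (hL : Layout n s pos col) {x h a b z : ℕ} (ha : a + 1 < n) (hb : b + 1 < n)
    (hz : z + 1 < n) (hg : (a, b) ∉ badCols n pos x h) :
    chi (n * n * n) pos x h (enc n a b z) (enc n a (b + 1) (z + 1)) +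
    chi (n * n * n) pos x h (enc n a b (z + 1)) (enc n a (b + 1) (z + 1)) =
      eps n pos x h a b z := by
  have h1 := tri_good hL (x := x) (h := h) (a := a) (b := b) (i := enc n a b z)
    (j := enc n a (b + 1) (z + 1)) (k := enc n (a + 1) (b + 1) (z + 1))
    (by omega) (by omega) hg (near_mk (by omega) (by omega) (by omega) (by omega) (by omega)
      (by omega) (by omega)) (near_mk (by omega) (by omega) (by omega) (by omega) (by omega)
      (by omega) (by omega)) (near_mk (by omega) (by omega) (by omega) (by omega) (by omega)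
      (by omega) (by omega)) (adjF (by omega) (by omega) (by omega) (by omega))
      (adjE (by omega) (by omega) (by omega) (by omega))
      (adjD (by omega) (by omega) (by omega) (by omega))
  have h2 := tri_good hL (x := x) (h := h) (a := a) (b := b) (i := enc n a b (z + 1))
    (j := enc n a (b + 1) (z + 1)) (k := enc n (a + 1) (b + 1) (z + 1))
    (by omega) (by omega) hg (near_mk (by omega) (by omega) (by omega) (by omega) (by omega)
      (by omega) (by omega)) (near_mk (by omega) (by omega) (by omega) (by omega) (by omega)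
      (by omega) (by omega)) (near_mk (by omega) (by omega) (by omega) (by omega) (by omega)
      (by omega) (by omega)) (adjF (by omega) (by omega) (by omega) (by omega))
      (adjE (by omega) (by omega) (by omega) (by omega))
      (adjD (by omega) (by omega) (by omega) (by omega))
  unfold eps
  have h3 : (2 : ZMod 2) = 0 := rfl
  linear_combination h1 + h2 -
    (chi (n * n * n) pos x h (enc n a (b + 1) (z + 1)) (enc n (a + 1) (b + 1) (z + 1)) +
     chi (n * n * n) pos x h (enc n a b z) (enc n (a + 1) (b + 1) (z + 1)) +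
     chi (n * n * n) pos x h (enc n a b (z + 1)) (enc n (a + 1) (b + 1) (z + 1))) * h3

lemma eps_Eminus (hL : Layout n s pos col) {x h a b z : ℕ} (ha : a + 2 < n) (hb : b + 1 < n)
    (hz : z + 1 < n) (hg : (a + 1, b) ∉ badCols n pos x h) :
    chi (n * n * n) pos x h (enc n a b z) (enc n (a + 1) b z) +
    chi (n * n * n) pos x h (enc n a b z) (enc n (a + 1) b (z + 1)) =
      eps n pos x h (a + 1) b z := by
  have h1 := tri_good hL (x := x) (h := h) (a := a + 1) (b := b) (i := enc n a b z)
    (j := enc n (a + 1) b z) (k := enc n (a + 1) (b + 1) (z + 1))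
    (by omega) (by omega) hg (near_mk (by omega) (by omega) (by omega) (by omega) (by omega)
      (by omega) (by omega)) (near_mk (by omega) (by omega) (by omega) (by omega) (by omega)
      (by omega) (by omega)) (near_mk (by omega) (by omega) (by omega) (by omega) (by omega)
      (by omega) (by omega)) (adjE (by omega) (by omega) (by omega) (by omega))
      (adjF (by omega) (by omega) (by omega) (by omega))
      (adjD (by omega) (by omega) (by omega) (by omega))
  have h2 := tri_good hL (x := x) (h := h) (a := a + 1) (b := b) (i := enc n a b z)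
    (j := enc n (a + 1) b (z + 1)) (k := enc n (a + 1) (b + 1) (z + 1))
    (by omega) (by omega) hg (near_mk (by omega) (by omega) (by omega) (by omega) (by omega)
      (by omega) (by omega)) (near_mk (by omega) (by omega) (by omega) (by omega) (by omega)
      (by omega) (by omega)) (near_mk (by omega) (by omega) (by omega) (by omega) (by omega)
      (by omega) (by omega)) (adjE (by omega) (by omega) (by omega) (by omega))
      (adjF (by omega) (by omega) (by omega) (by omega))
      (adjD (by omega) (by omega) (by omega) (by omega))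
  have h4 := eps_Fplus hL (x := x) (h := h) (a := a + 1) (b := b) (z := z) (by omega) hb hz hg
  have h3 : (2 : ZMod 2) = 0 := rfl
  linear_combination h1 + h2 + h4 -
    (chi (n * n * n) pos x h (enc n (a + 1) b z) (enc n (a + 1) (b + 1) (z + 1)) +
     chi (n * n * n) pos x h (enc n a b z) (enc n (a + 1) (b + 1) (z + 1)) +
     chi (n * n * n) pos x h (enc n (a + 1) b (z + 1)) (enc n (a + 1) (b + 1) (z + 1))) * h3

lemma eps_Fminus (hL : Layout n s pos col) {x h a b z : ℕ} (ha : a + 1 < n) (hb : b + 2 < n)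
    (hz : z + 1 < n) (hg : (a, b + 1) ∉ badCols n pos x h) :
    chi (n * n * n) pos x h (enc n a b z) (enc n a (b + 1) z) +
    chi (n * n * n) pos x h (enc n a b z) (enc n a (b + 1) (z + 1)) =
      eps n pos x h a (b + 1) z := by
  have h1 := tri_good hL (x := x) (h := h) (a := a) (b := b + 1) (i := enc n a b z)
    (j := enc n a (b + 1) z) (k := enc n (a + 1) (b + 1) (z + 1))
    (by omega) (by omega) hg (near_mk (by omega) (by omega) (by omega) (by omega) (by omega)
      (by omega) (by omega)) (near_mk (by omega) (by omega) (by omega) (by omega) (by omega)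
      (by omega) (by omega)) (near_mk (by omega) (by omega) (by omega) (by omega) (by omega)
      (by omega) (by omega)) (adjF (by omega) (by omega) (by omega) (by omega))
      (adjE (by omega) (by omega) (by omega) (by omega))
      (adjD (by omega) (by omega) (by omega) (by omega))
  have h2 := tri_good hL (x := x) (h := h) (a := a) (b := b + 1) (i := enc n a b z)
    (j := enc n a (b + 1) (z + 1)) (k := enc n (a + 1) (b + 1) (z + 1))
    (by omega) (by omega) hg (near_mk (by omega) (by omega) (by omega) (by omega) (by omega)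
      (by omega) (by omega)) (near_mk (by omega) (by omega) (by omega) (by omega) (by omega)
      (by omega) (by omega)) (near_mk (by omega) (by omega) (by omega) (by omega) (by omega)
      (by omega) (by omega)) (adjF (by omega) (by omega) (by omega) (by omega))
      (adjE (by omega) (by omega) (by omega) (by omega))
      (adjD (by omega) (by omega) (by omega) (by omega))
  have h4 := eps_Eplus hL (x := x) (h := h) (a := a) (b := b + 1) (z := z) ha (by omega) hz hg
  have h3 : (2 : ZMod 2) = 0 := rfl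
  linear_combination h1 + h2 + h4 -
    (chi (n * n * n) pos x h (enc n a (b + 1) z) (enc n (a + 1) (b + 1) (z + 1)) +
     chi (n * n * n) pos x h (enc n a b z) (enc n (a + 1) (b + 1) (z + 1)) +
     chi (n * n * n) pos x h (enc n a (b + 1) (z + 1)) (enc n (a + 1) (b + 1) (z + 1))) * h3

end Local

section Primitive

variable {n s : ℕ} {pos : ℕ → ℕ} {col : ℕ → ℕ → Fin s}

/-- The primitive on the floor `z0`. -/
def prim (n : ℕ) (pos : ℕ → ℕ) (x h z0 a b : ℕ) : ZMod 2 :=
  (∑ i ∈ Finset.range a, chi (n * n * n) pos x h (enc n i 0 z0) (enc n (i + 1) 0 z0)) +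
  ∑ j ∈ Finset.range b, chi (n * n * n) pos x h (enc n a j z0) (enc n a (j + 1) z0)

lemma prim_F {x h z0 a b : ℕ} :
    chi (n * n * n) pos x h (enc n a b z0) (enc n a (b + 1) z0) =
      prim n pos x h z0 a b + prim n pos x h z0 a (b + 1) := by
  unfold prim
  rw [Finset.sum_range_succ]
  have h3 : (2 : ZMod 2) = 0 := rfl
  linear_combination -
    ((∑ i ∈ Finset.range a, chi (n * n * n) pos x h (enc n i 0 z0) (enc n (i + 1) 0 z0)) +
     ∑ j ∈ Finset.range b, chi (n * n * n) pos x h (enc n a j z0) (enc n a (j + 1) z0)) * h3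

lemma floor_tri (hL : Layout n s pos col) {x h z0 : ℕ}
    (hg : ∀ r1 r2 r3, Bad (n * n * n) pos (adjN n) x h r1 r2 r3 →
      ¬ ((∃ a b, b < n ∧ r1 = enc n a b z0) ∧ (∃ a b, b < n ∧ r2 = enc n a b z0) ∧
        (∃ a b, b < n ∧ r3 = enc n a b z0))) {i j k : ℕ}
    (hi : ∃ a b, b < n ∧ i = enc n a b z0) (hj : ∃ a b, b < n ∧ j = enc n a b z0)
    (hk : ∃ a b, b < n ∧ k = enc n a b z0)
    (hij : adjN n i j) (hjk : adjN n j k) (hik : adjN n i k) :
    chi (n * n * n) pos x h i j + chi (n * n * n) pos x h j k + chi (n * n * n) pos x h i k = 0 := by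
  by_contra hcon
  obtain ⟨r1, r2, r3, hB, h1, h2, h3⟩ := exists_bad (n * n * n) pos (adj := adjN n)
    (fun i j hij => ⟨hL.lt _ hij.1, hL.lt _ hij.2.1⟩) (fun i j h => adjN_symm h)
    (fun i j h => pos_ne hL h) hij hjk hik hcon
  have hq : ∀ r, (r = i ∨ r = j ∨ r = k) → (∃ a b, b < n ∧ r = enc n a b z0) := by
    rintro r (rfl | rfl | rfl) <;> assumption
  exact hg r1 r2 r3 hB ⟨hq _ h1, hq _ h2, hq _ h3⟩

lemma prim_E (hL : Layout n s pos col) {x h z0 : ℕ} (hz0 : z0 < n)
    (hg : ∀ r1 r2 r3, Bad (n * n * n) pos (adjN n) x h r1 r2 r3 →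
      ¬ ((∃ a b, b < n ∧ r1 = enc n a b z0) ∧ (∃ a b, b < n ∧ r2 = enc n a b z0) ∧
        (∃ a b, b < n ∧ r3 = enc n a b z0))) {a : ℕ} (ha : a + 1 < n) (b : ℕ) (hb : b < n) :
    chi (n * n * n) pos x h (enc n a b z0) (enc n (a + 1) b z0) =
      prim n pos x h z0 a b + prim n pos x h z0 (a + 1) b := by
  have h3 : (2 : ZMod 2) = 0 := rfl
  induction b with
  | zero =>
    unfold prim
    rw [Finset.sum_range_succ]
    simp only [Finset.range_zero, Finset.sum_empty, add_zero]
    linear_combination -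
      (∑ i ∈ Finset.range a, chi (n * n * n) pos x h (enc n i 0 z0) (enc n (i + 1) 0 z0)) * h3
  | succ b ih =>
    have ih' := ih (by omega)
    have t1 := floor_tri hL hg (i := enc n a b z0) (j := enc n (a + 1) b z0)
      (k := enc n (a + 1) (b + 1) z0) ⟨a, b, by omega, rfl⟩ ⟨a + 1, b, by omega, rfl⟩
      ⟨a + 1, b + 1, by omega, rfl⟩ (adjE (by omega) (by omega) (by omega) (by omega))
      (adjF (by omega) (by omega) (by omega) (by omega))
      (adjD (by omega) (by omega) (by omega) (by omega))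
    have t2 := floor_tri hL hg (i := enc n a b z0) (j := enc n a (b + 1) z0)
      (k := enc n (a + 1) (b + 1) z0) ⟨a, b, by omega, rfl⟩ ⟨a, b + 1, by omega, rfl⟩
      ⟨a + 1, b + 1, by omega, rfl⟩ (adjF (by omega) (by omega) (by omega) (by omega))
      (adjE (by omega) (by omega) (by omega) (by omega))
      (adjD (by omega) (by omega) (by omega) (by omega))
    have f1 := prim_F (n := n) (pos := pos) (x := x) (h := h) (z0 := z0) (a := a) (b := b)
    have f2 := prim_F (n := n) (pos := pos) (x := x) (h := h) (z0 := z0) (a := a + 1) (b := b)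
    linear_combination t1 + t2 - f1 - f2 - ih' -
      (chi (n * n * n) pos x h (enc n a b z0) (enc n (a + 1) (b + 1) z0) +
        prim n pos x h z0 a b + prim n pos x h z0 (a + 1) b +
        prim n pos x h z0 a (b + 1) + prim n pos x h z0 (a + 1) (b + 1)) * h3

/-- Coherence: off the finite set `R` of columns, `chi` is the coboundary of `S`. -/
structure Coh (n : ℕ) (pos : ℕ → ℕ) (x h : ℕ) (R : Finset (ℕ × ℕ)) (S : ℕ → ℕ → ℕ → ZMod 2) :
    Prop where
  E : ∀ a b z, a + 2 < n → b + 1 < n → z < n → (a, b) ∉ R → (a + 1, b) ∉ R →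
    chi (n * n * n) pos x h (enc n a b z) (enc n (a + 1) b z) = S a b z + S (a + 1) b z
  F : ∀ a b z, a + 1 < n → b + 2 < n → z < n → (a, b) ∉ R → (a, b + 1) ∉ R →
    chi (n * n * n) pos x h (enc n a b z) (enc n a (b + 1) z) = S a b z + S a (b + 1) z
  F' : ∀ a b z, a + 1 < n → b + 2 < n → z + 1 < n → (a, b) ∉ R → (a, b + 1) ∉ R →
    chi (n * n * n) pos x h (enc n a b z) (enc n a (b + 1) (z + 1)) =
      S a b z + S a (b + 1) (z + 1)

/-- The sum of the vertical values below height `z`. -/
def esum (n : ℕ) (pos : ℕ → ℕ) (x h a b z : ℕ) : ZMod 2 :=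
  ∑ i ∈ Finset.range z, eps n pos x h a b i

lemma exists_coh (hL : Layout n s pos col) (hn : s ^ 3 < n) (x h : ℕ) :
    ∃ S : ℕ → ℕ → ℕ → ZMod 2, Coh n pos x h (badCols n pos x h) S := by
  obtain ⟨z0, hz0, hg⟩ := exists_floor hL hn x h
  have h3 : (2 : ZMod 2) = 0 := rfl
  have hE : ∀ a b z, a + 2 < n → b + 1 < n → z < n → (a, b) ∉ badCols n pos x h →
      (a + 1, b) ∉ badCols n pos x h →
      chi (n * n * n) pos x h (enc n a b z) (enc n (a + 1) b z) +
      chi (n * n * n) pos x h (enc n a b 0) (enc n (a + 1) b 0) =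
        esum n pos x h a b z + esum n pos x h (a + 1) b z := by
    intro a b z ha hb hz h1 h2
    induction z with
    | zero =>
      unfold esum
      simp only [Finset.range_zero, Finset.sum_empty, add_zero]
      exact char2 _
    | succ z ih =>
      have ih' := ih (by omega)
      have e1 := eps_Eplus hL (x := x) (h := h) (a := a) (b := b) (z := z) (by omega) hb hz h1
      have e2 := eps_Eminus hL (x := x) (h := h) (a := a) (b := b) (z := z) ha hb hz h2
      unfold esum at ih' ⊢
      rw [Finset.sum_range_succ, Finset.sum_range_succ]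
      linear_combination ih' + e1 + e2 -
        (chi (n * n * n) pos x h (enc n a b z) (enc n (a + 1) b (z + 1)) +
         chi (n * n * n) pos x h (enc n a b z) (enc n (a + 1) b z)) * h3
  have hF : ∀ a b z, a + 1 < n → b + 2 < n → z < n → (a, b) ∉ badCols n pos x h →
      (a, b + 1) ∉ badCols n pos x h →
      chi (n * n * n) pos x h (enc n a b z) (enc n a (b + 1) z) +
      chi (n * n * n) pos x h (enc n a b 0) (enc n a (b + 1) 0) =
        esum n pos x h a b z + esum n pos x h a (b + 1) z := by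
    intro a b z ha hb hz h1 h2
    induction z with
    | zero =>
      unfold esum
      simp only [Finset.range_zero, Finset.sum_empty, add_zero]
      exact char2 _
    | succ z ih =>
      have ih' := ih (by omega)
      have e1 := eps_Fplus hL (x := x) (h := h) (a := a) (b := b) (z := z) ha (by omega) hz h1
      have e2 := eps_Fminus hL (x := x) (h := h) (a := a) (b := b) (z := z) ha hb hz h2
      unfold esum at ih' ⊢
      rw [Finset.sum_range_succ, Finset.sum_range_succ]
      linear_combination ih' + e1 + e2 -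
        (chi (n * n * n) pos x h (enc n a b z) (enc n a (b + 1) (z + 1)) +
         chi (n * n * n) pos x h (enc n a b z) (enc n a (b + 1) z)) * h3
  refine ⟨fun a b z => prim n pos x h z0 a b + esum n pos x h a b z + esum n pos x h a b z0,
    ?_, ?_, ?_⟩
  · intro a b z ha hb hz h1 h2
    have e1 := hE a b z ha hb hz h1 h2
    have e2 := hE a b z0 ha hb hz0 h1 h2
    have e3 := prim_E hL hz0 hg (a := a) (by omega) b (by omega)
    linear_combination e1 - e2 + e3 +
      (esum n pos x h a b z0 + esum n pos x h (a + 1) b z0) * (-h3)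
  · intro a b z ha hb hz h1 h2
    have e1 := hF a b z ha hb hz h1 h2
    have e2 := hF a b z0 ha hb hz0 h1 h2
    have e3 := prim_F (n := n) (pos := pos) (x := x) (h := h) (z0 := z0) (a := a) (b := b)
    linear_combination e1 - e2 + e3 +
      (esum n pos x h a b z0 + esum n pos x h a (b + 1) z0) * (-h3)
  · intro a b z ha hb hz h1 h2
    have e1 := hF a b z ha hb (by omega) h1 h2
    have e2 := hF a b z0 ha hb hz0 h1 h2
    have e3 := prim_F (n := n) (pos := pos) (x := x) (h := h) (z0 := z0) (a := a) (b := b)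
    have e4 := eps_Fminus hL (x := x) (h := h) (a := a) (b := b) (z := z) ha hb hz h2
    have e5 : esum n pos x h a (b + 1) (z + 1) =
        esum n pos x h a (b + 1) z + eps n pos x h a (b + 1) z := by
      unfold esum; rw [Finset.sum_range_succ]
    simp only [e5]
    linear_combination e1 - e2 + e3 + e4 +
      (esum n pos x h a b z0 + esum n pos x h a (b + 1) z0 +
       chi (n * n * n) pos x h (enc n a b z) (enc n a (b + 1) z)) * (-h3)

end Primitive

/-! ## Part 3: connectivity off few columns, and the monodromy argument -/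

/-- Row `a` avoids `R`. -/
def FreeRow (n : ℕ) (R : Finset (ℕ × ℕ)) (a : ℕ) : Prop :=
  a + 1 < n ∧ ∀ b, b + 1 < n → (a, b) ∉ R

/-- Line `b` avoids `R`. -/
def FreeLine (n : ℕ) (R : Finset (ℕ × ℕ)) (b : ℕ) : Prop :=
  b + 1 < n ∧ ∀ a, a + 1 < n → (a, b) ∉ R

lemma FreeRow.mono {n : ℕ} {R R' : Finset (ℕ × ℕ)} (hR : R ⊆ R') {a : ℕ}
    (h : FreeRow n R' a) : FreeRow n R a := ⟨h.1, fun b hb hm => h.2 b hb (hR hm)⟩

lemma FreeLine.mono {n : ℕ} {R R' : Finset (ℕ × ℕ)} (hR : R ⊆ R') {a : ℕ}
    (h : FreeLine n R' a) : FreeLine n R a := ⟨h.1, fun b hb hm => h.2 b hb (hR hm)⟩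

lemma exists_freeRow {n : ℕ} {R : Finset (ℕ × ℕ)} (h : R.card + 1 < n) : ∃ a, FreeRow n R a := by
  classical
  by_contra hcon
  push Not at hcon
  have h1 : Finset.range (n - 1) ⊆ R.image Prod.fst := by
    intro a ha
    rw [Finset.mem_range] at ha
    have h2 := hcon a
    unfold FreeRow at h2
    push Not at h2
    obtain ⟨b, -, hb⟩ := h2 (by omega)
    exact Finset.mem_image.2 ⟨(a, b), hb, rfl⟩
  have h2 := Finset.card_le_card h1
  rw [Finset.card_range] at h2
  have h3 := Finset.card_image_le (s := R) (f := Prod.fst)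
  omega

lemma exists_freeLine {n : ℕ} {R : Finset (ℕ × ℕ)} (h : R.card + 1 < n) : ∃ b, FreeLine n R b := by
  classical
  by_contra hcon
  push Not at hcon
  have h1 : Finset.range (n - 1) ⊆ R.image Prod.snd := by
    intro b hb
    rw [Finset.mem_range] at hb
    have h2 := hcon b
    unfold FreeLine at h2
    push Not at h2
    obtain ⟨a, -, ha⟩ := h2 (by omega)
    exact Finset.mem_image.2 ⟨(a, b), ha, rfl⟩
  have h2 := Finset.card_le_card h1
  rw [Finset.card_range] at h2
  have h3 := Finset.card_image_le (s := R) (f := Prod.snd)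
  omega

lemma const_of_free {n : ℕ} {R : Finset (ℕ × ℕ)} {f : ℕ → ℕ → ℕ → ZMod 2} (hn : 2 < n)
    (hE : ∀ a b z, a + 2 < n → b + 1 < n → z < n → (a, b) ∉ R → (a + 1, b) ∉ R →
      f a b z = f (a + 1) b z)
    (hF : ∀ a b z, a + 1 < n → b + 2 < n → z < n → (a, b) ∉ R → (a, b + 1) ∉ R →
      f a b z = f a (b + 1) z)
    (hF' : ∀ a b z, a + 1 < n → b + 2 < n → z + 1 < n → (a, b) ∉ R → (a, b + 1) ∉ R →
      f a b z = f a (b + 1) (z + 1)) :
    ∃ k, ∀ a b z, FreeRow n R a → FreeLine n R b → z < n → f a b z = k := by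
  -- along a free row
  have h1 : ∀ a, FreeRow n R a → ∀ b z, b + 1 < n → z < n → f a b z = f a 0 z := by
    intro a ha b z hb hz
    induction b with
    | zero => rfl
    | succ b ih =>
      rw [← ih (by omega)]
      exact (hF a b z ha.1 (by omega) hz (ha.2 _ (by omega)) (ha.2 _ (by omega))).symm
  have h2 : ∀ b, FreeLine n R b → ∀ a z, a + 1 < n → z < n → f a b z = f 0 b z := by
    intro b hb a z ha hz
    induction a with
    | zero => rfl
    | succ a ih =>
      rw [← ih (by omega)]
      exact (hE a b z (by omega) hb.1 hz (hb.2 _ (by omega)) (hb.2 _ (by omega))).symm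
  have h3 : ∀ a, FreeRow n R a → ∀ z, z < n → f a 0 z = f a 0 0 := by
    intro a ha z hz
    induction z with
    | zero => rfl
    | succ z ih =>
      rw [← ih (by omega)]
      have e1 := hF' a 0 z ha.1 (by omega) hz (ha.2 _ (by omega)) (ha.2 _ (by omega))
      have e2 := hF a 0 (z + 1) ha.1 (by omega) hz (ha.2 _ (by omega)) (ha.2 _ (by omega))
      rw [e1, e2]
  by_cases hex : (∃ a, FreeRow n R a) ∧ ∃ b, FreeLine n R b
  · obtain ⟨⟨a0, ha0⟩, b0, hb0⟩ := hex
    refine ⟨f a0 0 0, fun a b z ha hb hz => ?_⟩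
    have e1 : f a b z = f a 0 0 := by rw [h1 a ha b z hb.1 hz, h3 a ha z hz]
    have e2 : f a b0 0 = f a 0 0 := h1 a ha b0 0 hb0.1 (by omega)
    have e3 : f a0 b0 0 = f a0 0 0 := h1 a0 ha0 b0 0 hb0.1 (by omega)
    have e4 : f a b0 0 = f 0 b0 0 := h2 b0 hb0 a 0 ha.1 (by omega)
    have e5 : f a0 b0 0 = f 0 b0 0 := h2 b0 hb0 a0 0 ha0.1 (by omega)
    rw [e1, ← e2, e4, ← e5, e3]
  · refine ⟨0, fun a b z ha hb hz => ?_⟩
    exact absurd ⟨⟨a, ha⟩, b, hb⟩ hex

section Final

variable {n s : ℕ} {pos : ℕ → ℕ} {col : ℕ → ℕ → Fin s}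

lemma exists_colAt (hL : Layout n s pos col) (y : ℕ) :
    ∃ c : ℕ × ℕ, ∀ a b z, a < n → b < n → z < n → pos (enc n a b z) = y → (a, b) = c := by
  by_cases h : ∃ a b z, a < n ∧ b < n ∧ z < n ∧ pos (enc n a b z) = y
  · obtain ⟨a0, b0, z0, h1, h2, h3, h4⟩ := h
    refine ⟨(a0, b0), fun a b z g1 g2 g3 g4 => ?_⟩
    have := hL.inj _ _ (enc_lt g1 g2 g3) (enc_lt h1 h2 h3) (g4.trans h4.symm)
    obtain ⟨e1, e2, -⟩ := enc_inj g2 g3 h2 h3 this
    rw [e1, e2]
  · refine ⟨(0, 0), fun a b z g1 g2 g3 g4 => ?_⟩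
    exact absurd ⟨a, b, z, g1, g2, g3, g4⟩ h

lemma step {x h x' h' y : ℕ} (hn : 2 < n) {R R' : Finset (ℕ × ℕ)} {S S' : ℕ → ℕ → ℕ → ZMod 2}
    (hS : Coh n pos x h R S) (hS' : Coh n pos x' h' R' S') {c : ℕ × ℕ}
    (hc : ∀ a b z, a < n → b < n → z < n → pos (enc n a b z) = y → (a, b) = c)
    (hchi : ∀ i j, i < n * n * n → j < n * n * n → pos i ≠ y → pos j ≠ y →
      chi (n * n * n) pos x h i j = chi (n * n * n) pos x' h' i j) :
    ∃ k, ∀ a b z, FreeRow n (insert c (R ∪ R')) a → FreeLine n (insert c (R ∪ R')) b → z < n →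
      S a b z + S' a b z = k := by
  have h3 : (2 : ZMod 2) = 0 := rfl
  have hq : ∀ {a b z}, a < n → b < n → z < n → (a, b) ∉ insert c (R ∪ R') →
      enc n a b z < n * n * n ∧ pos (enc n a b z) ≠ y ∧ (a, b) ∉ R ∧ (a, b) ∉ R' := by
    intro a b z ha hb hz hm
    simp only [Finset.mem_insert, Finset.mem_union, not_or] at hm
    exact ⟨enc_lt ha hb hz, fun he => hm.1 (hc a b z ha hb hz he), hm.2.1, hm.2.2⟩
  apply const_of_free (f := fun a b z => S a b z + S' a b z) hn
  · intro a b z ha hb hz h1 h2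
    obtain ⟨p1, p2, p3, p4⟩ := hq (z := z) (by omega) (by omega) hz h1
    obtain ⟨q1, q2, q3, q4⟩ := hq (z := z) (by omega) (by omega) hz h2
    have e1 := hS.E a b z ha hb hz p3 q3
    have e2 := hS'.E a b z ha hb hz p4 q4
    have e3 := hchi _ _ p1 q1 p2 q2
    linear_combination -e1 - e2 + e3 - (S (a + 1) b z + S' (a + 1) b z) * h3 +
      chi (n * n * n) pos x' h' (enc n a b z) (enc n (a + 1) b z) * h3
  · intro a b z ha hb hz h1 h2
    obtain ⟨p1, p2, p3, p4⟩ := hq (z := z) (by omega) (by omega) hz h1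
    obtain ⟨q1, q2, q3, q4⟩ := hq (z := z) (by omega) (by omega) hz h2
    have e1 := hS.F a b z ha hb hz p3 q3
    have e2 := hS'.F a b z ha hb hz p4 q4
    have e3 := hchi _ _ p1 q1 p2 q2
    linear_combination -e1 - e2 + e3 - (S a (b + 1) z + S' a (b + 1) z) * h3 +
      chi (n * n * n) pos x' h' (enc n a b z) (enc n a (b + 1) z) * h3
  · intro a b z ha hb hz h1 h2
    obtain ⟨p1, p2, p3, p4⟩ := hq (z := z) (by omega) (by omega) (by omega) h1
    obtain ⟨q1, q2, q3, q4⟩ := hq (z := z + 1) (by omega) (by omega) hz h2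
    have e1 := hS.F' a b z ha hb hz p3 q3
    have e2 := hS'.F' a b z ha hb hz p4 q4
    have e3 := hchi _ _ p1 q1 p2 q2
    linear_combination -e1 - e2 + e3 - (S a (b + 1) (z + 1) + S' a (b + 1) (z + 1)) * h3 +
      chi (n * n * n) pos x' h' (enc n a b z) (enc n a (b + 1) (z + 1)) * h3

lemma chi_hor (x h i j : ℕ) (hi : pos i ≠ x) (hj : pos j ≠ x) :
    chi (n * n * n) pos x h i j = chi (n * n * n) pos (x + 1) h i j := by
  unfold chi
  congr 1
  unfold cov
  apply propext
  constructor
  · rintro ⟨h1, h2, h3⟩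
    refine ⟨by omega, ?_, h3⟩
    rcases Nat.lt_or_ge (pos i) (pos j) with h4 | h4
    · rw [max_eq_right h4.le] at h2 ⊢; omega
    · rw [max_eq_left h4] at h2 ⊢; omega
  · rintro ⟨h1, h2, h3⟩
    refine ⟨?_, by omega, h3⟩
    rcases Nat.lt_or_ge (pos i) (pos j) with h4 | h4
    · rw [min_eq_left h4.le] at h1 ⊢; omega
    · rw [min_eq_right h4] at h1 ⊢; omega

lemma chi_ver (hL : Layout n s pos col) (x h i j : ℕ) (hi' : i < n * n * n) (hj' : j < n * n * n)
    (hi : pos i ≠ (h + 1) % (n * n * n))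
    (hj : pos j ≠ (h + 1) % (n * n * n)) :
    chi (n * n * n) pos x h i j = chi (n * n * n) pos x (h + 1) i j := by
  have key : ∀ p q, p < n * n * n → p ≠ (h + 1) % (n * n * n) →
      (cov (n * n * n) x h p q ↔ cov (n * n * n) x (h + 1) p q) := by
    intro p q hp hne
    unfold cov
    constructor
    · rintro ⟨h1, h2, h3⟩
      refine ⟨h1, h2, ?_⟩
      by_contra hcon
      have he : h + 1 = (q - p) * (n * n * n) + p := by omega
      apply hne
      rw [he, Nat.mul_add_mod_self_right, Nat.mod_eq_of_lt hp]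
    · rintro ⟨h1, h2, h3⟩
      exact ⟨h1, h2, by omega⟩
  unfold chi
  congr 1
  apply propext
  rcases Nat.lt_or_ge (pos i) (pos j) with h4 | h4
  · rw [min_eq_left h4.le, max_eq_right h4.le]
    exact key _ _ (hL.lt _ hi') hi
  · rw [min_eq_right h4, max_eq_left h4]
    exact key _ _ (hL.lt _ hj') hj

/-- The family of primitives, normalised on the boundary. -/
lemma exists_family (hL : Layout n s pos col) (hn : s ^ 3 < n) :
    ∃ (Bd : ℕ → ℕ → Finset (ℕ × ℕ)) (S : ℕ → ℕ → ℕ → ℕ → ℕ → ZMod 2), ∀ x h,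
      (Bd x h).card ≤ 9 * s ^ 3 ∧ Coh n pos x h (Bd x h) (S x h) ∧
      ((x = 0 ∨ n * n * n ≤ x ∨ n * n * n * (n * n * n) + n * n * n ≤ h) →
        ∀ a b z, S x h a b z = 0) ∧
      (0 < x → x < n * n * n → h = 0 → ∀ a b z, a < n → b < n → z < n →
        S x h a b z = if pos (enc n a b z) < x then 1 else 0) := by
  have hmain : ∀ x h, ∃ (R : Finset (ℕ × ℕ)) (S : ℕ → ℕ → ℕ → ZMod 2),
      R.card ≤ 9 * s ^ 3 ∧ Coh n pos x h R S ∧
      ((x = 0 ∨ n * n * n ≤ x ∨ n * n * n * (n * n * n) + n * n * n ≤ h) →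
        ∀ a b z, S a b z = 0) ∧
      (0 < x → x < n * n * n → h = 0 → ∀ a b z, a < n → b < n → z < n →
        S a b z = if pos (enc n a b z) < x then 1 else 0) := by
    intro x h
    by_cases c1 : x = 0 ∨ n * n * n ≤ x ∨ n * n * n * (n * n * n) + n * n * n ≤ h
    · refine ⟨∅, fun _ _ _ => 0, by simp, ?_, fun _ _ _ _ => rfl, ?_⟩
      · have hz : ∀ i j, i < n * n * n → j < n * n * n →
            chi (n * n * n) pos x h i j = 0 := by
          intro i j hi hj
          unfold chi
          rw [if_neg]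
          have p1 := hL.lt i hi
          have p2 := hL.lt j hj
          rintro ⟨h1, h2, h3⟩
          rcases c1 with c | c | c
          · omega
          · rcases Nat.lt_or_ge (pos i) (pos j) with h4 | h4
            · rw [max_eq_right h4.le] at h2; omega
            · rw [max_eq_left h4] at h2; omega
          · have h5 : min (pos i) (pos j) < n * n * n := lt_of_le_of_lt (min_le_left _ _) p1
            have h6 : max (pos i) (pos j) - min (pos i) (pos j) ≤ n * n * n := by
              rcases Nat.lt_or_ge (pos i) (pos j) with h4 | h4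
              · rw [max_eq_right h4.le]; omega
              · rw [max_eq_left h4]; omega
            have h7 := Nat.mul_le_mul_right (n * n * n) h6
            omega
        refine ⟨?_, ?_, ?_⟩
        · intro a b z ha hb hz' _ _
          rw [hz _ _ (enc_lt (by omega) (by omega) hz') (enc_lt (by omega) (by omega) hz')]
          rfl
        · intro a b z ha hb hz' _ _
          rw [hz _ _ (enc_lt (by omega) (by omega) hz') (enc_lt (by omega) (by omega) hz')]
          rfl
        · intro a b z ha hb hz' _ _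
          rw [hz _ _ (enc_lt (by omega) (by omega) (by omega)) (enc_lt (by omega) (by omega) hz')]
          rfl
      · intro h1 h2 h3
        exfalso
        have h4 : 0 < n * n * n := by omega
        have h5 : 0 < n * n * n * (n * n * n) := Nat.mul_pos h4 h4
        omega
    · by_cases c2 : h = 0
      · push Not at c1
        subst c2
        refine ⟨∅, fun a b z => if pos (enc n a b z) < x then 1 else 0, by simp, ?_, ?_, ?_⟩
        · have hz : ∀ i j, i < n * n * n → j < n * n * n →
              chi (n * n * n) pos x 0 i j =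
                (if pos i < x then 1 else 0) + (if pos j < x then 1 else 0) := by
            have hNN : 0 < n * n * n := by omega
            have key : ∀ p q, p < q → (if cov (n * n * n) x 0 p q then (1 : ZMod 2) else 0) =
                (if p < x then 1 else 0) + (if q < x then 1 else 0) := by
              intro p q hpq
              have h9 : 0 < (q - p) * (n * n * n) := Nat.mul_pos (by omega) hNN
              by_cases g1 : q < x
              · rw [if_neg (by unfold cov; omega), if_pos (by omega : p < x), if_pos g1]; rfl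
              · by_cases g2 : p < x
                · rw [if_pos (by unfold cov; omega), if_pos g2, if_neg g1]; rfl
                · rw [if_neg (by unfold cov; omega), if_neg g2, if_neg g1]; rfl
            intro i j hi hj
            rcases lt_trichotomy (pos i) (pos j) with h4 | h4 | h4
            · rw [chi_of_lt _ _ h4, key _ _ h4]
            · unfold chi
              rw [h4, min_self, max_self, char2, if_neg]
              unfold cov; omega
            · rw [chi_comm, chi_of_lt _ _ h4, key _ _ h4, add_comm]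
          refine ⟨?_, ?_, ?_⟩
          · intro a b z ha hb hz' _ _
            exact hz _ _ (enc_lt (by omega) (by omega) hz') (enc_lt (by omega) (by omega) hz')
          · intro a b z ha hb hz' _ _
            exact hz _ _ (enc_lt (by omega) (by omega) hz') (enc_lt (by omega) (by omega) hz')
          · intro a b z ha hb hz' _ _
            exact hz _ _ (enc_lt (by omega) (by omega) (by omega))
              (enc_lt (by omega) (by omega) hz')
        · intro hcon
          omega
        · intro _ _ _ a b z _ _ _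
          rfl
      · obtain ⟨S, hS⟩ := exists_coh hL hn x h
        exact ⟨_, S, card_badCols hL x h, hS, fun h => absurd h c1, fun _ _ h => absurd h c2⟩
  choose Bd S hBS using hmain
  exact ⟨Bd, S, hBS⟩

theorem no_layout (hn : 72 * s ^ 3 + 10 ≤ n) : ¬ Layout n s pos col := by
  intro hL
  have hn2 : 2 < n := by omega
  have hNpos : n ≤ n * n * n := by
    calc n = n * 1 * 1 := by ring
      _ ≤ n * n * n := Nat.mul_le_mul (Nat.mul_le_mul_left _ (by omega)) (by omega)
  obtain ⟨Bd, S, hfam⟩ := exists_family hL (by omega)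
  choose colAt hcol using fun y => exists_colAt hL y
  -- horizontal steps
  have hH : ∀ x h, ∃ k, ∀ a b z,
      FreeRow n (insert (colAt x) (Bd x h ∪ Bd (x + 1) h)) a →
      FreeLine n (insert (colAt x) (Bd x h ∪ Bd (x + 1) h)) b → z < n →
      S x h a b z + S (x + 1) h a b z = k := fun x h =>
    step hn2 (hfam x h).2.1 (hfam (x + 1) h).2.1 (hcol x)
      (fun i j _ _ hi hj => chi_hor x h i j hi hj)
  have hV : ∀ x h, ∃ k, ∀ a b z,
      FreeRow n (insert (colAt ((h + 1) % (n * n * n))) (Bd x h ∪ Bd x (h + 1))) a →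
      FreeLine n (insert (colAt ((h + 1) % (n * n * n))) (Bd x h ∪ Bd x (h + 1))) b → z < n →
      S x h a b z + S x (h + 1) a b z = k := fun x h =>
    step hn2 (hfam x h).2.1 (hfam x (h + 1)).2.1 (hcol _)
      (fun i j hi' hj' hi hj => chi_ver hL x h i j hi' hj' hi hj)
  choose CH hCH using hH
  choose CV hCV using hV
  have hcard : ∀ (c : ℕ × ℕ) x h x' h', (insert c (Bd x h ∪ Bd x' h')).card ≤ 18 * s ^ 3 + 1 := by
    intro c x h x' h'
    have h1 := Finset.card_insert_le c (Bd x h ∪ Bd x' h')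
    have h2 := Finset.card_union_le (Bd x h) (Bd x' h')
    have h3 := (hfam x h).1
    have h4 := (hfam x' h').1
    omega
  have h3 : (2 : ZMod 2) = 0 := rfl
  -- unit squares
  have hsq : ∀ x h, CH x h + CV (x + 1) h = CV x h + CH x (h + 1) := by
    intro x h
    set R1 := insert (colAt x) (Bd x h ∪ Bd (x + 1) h) with hR1
    set R2 := insert (colAt ((h + 1) % (n * n * n))) (Bd (x + 1) h ∪ Bd (x + 1) (h + 1)) with hR2
    set R3 := insert (colAt ((h + 1) % (n * n * n))) (Bd x h ∪ Bd x (h + 1)) with hR3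
    set R4 := insert (colAt x) (Bd x (h + 1) ∪ Bd (x + 1) (h + 1)) with hR4
    have c1 : R1.card ≤ 18 * s ^ 3 + 1 := hcard _ _ _ _ _
    have c2 : R2.card ≤ 18 * s ^ 3 + 1 := hcard _ _ _ _ _
    have c3 : R3.card ≤ 18 * s ^ 3 + 1 := hcard _ _ _ _ _
    have c4 : R4.card ≤ 18 * s ^ 3 + 1 := hcard _ _ _ _ _
    have u1 := Finset.card_union_le R1 R2
    have u2 := Finset.card_union_le R3 R4
    have u3 := Finset.card_union_le (R1 ∪ R2) (R3 ∪ R4)
    obtain ⟨a, ha⟩ := exists_freeRow (n := n) (R := (R1 ∪ R2) ∪ (R3 ∪ R4)) (by omega)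
    obtain ⟨b, hb⟩ := exists_freeLine (n := n) (R := (R1 ∪ R2) ∪ (R3 ∪ R4)) (by omega)
    have s1 : R1 ⊆ (R1 ∪ R2) ∪ (R3 ∪ R4) :=
      Finset.subset_union_left.trans Finset.subset_union_left
    have s2 : R2 ⊆ (R1 ∪ R2) ∪ (R3 ∪ R4) :=
      Finset.subset_union_right.trans Finset.subset_union_left
    have s3 : R3 ⊆ (R1 ∪ R2) ∪ (R3 ∪ R4) :=
      Finset.subset_union_left.trans Finset.subset_union_right
    have s4 : R4 ⊆ (R1 ∪ R2) ∪ (R3 ∪ R4) :=
      Finset.subset_union_right.trans Finset.subset_union_right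
    have e1 := hCH x h a b 0 (ha.mono s1) (hb.mono s1) (by omega)
    have e2 := hCV (x + 1) h a b 0 (ha.mono s2) (hb.mono s2) (by omega)
    have e3 := hCV x h a b 0 (ha.mono s3) (hb.mono s3) (by omega)
    have e4 := hCH x (h + 1) a b 0 (ha.mono s4) (hb.mono s4) (by omega)
    rw [← e1, ← e2, ← e3, ← e4]
    linear_combination (S (x + 1) h a b 0 - S x (h + 1) a b 0) * h3
  -- boundary values
  have hval : ∀ (c : ℕ × ℕ) x h x' h', ∃ a b,
      FreeRow n (insert c (Bd x h ∪ Bd x' h')) a ∧
      FreeLine n (insert c (Bd x h ∪ Bd x' h')) b := by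
    intro c x h x' h'
    have h1 := hcard c x h x' h'
    obtain ⟨a, ha⟩ := exists_freeRow (n := n) (R := insert c (Bd x h ∪ Bd x' h')) (by omega)
    obtain ⟨b, hb⟩ := exists_freeLine (n := n) (R := insert c (Bd x h ∪ Bd x' h')) (by omega)
    exact ⟨a, b, ha, hb⟩
  have hV0 : ∀ h, CV 0 h = 0 := by
    intro h
    obtain ⟨a, b, ha, hb⟩ := hval (colAt ((h + 1) % (n * n * n))) 0 h 0 (h + 1)
    rw [← hCV 0 h a b 0 ha hb (by omega), (hfam 0 h).2.2.1 (Or.inl rfl),
      (hfam 0 (h + 1)).2.2.1 (Or.inl rfl)]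
    rfl
  have hVN : ∀ h, CV (n * n * n) h = 0 := by
    intro h
    obtain ⟨a, b, ha, hb⟩ := hval (colAt ((h + 1) % (n * n * n))) (n * n * n) h (n * n * n) (h + 1)
    rw [← hCV _ h a b 0 ha hb (by omega), (hfam _ h).2.2.1 (Or.inr (Or.inl le_rfl)),
      (hfam _ (h + 1)).2.2.1 (Or.inr (Or.inl le_rfl))]
    rfl
  have htop : ∀ x, CH x (n * n * n * (n * n * n) + n * n * n) = 0 := by
    intro x
    obtain ⟨a, b, ha, hb⟩ := hval (colAt x) x (n * n * n * (n * n * n) + n * n * n) (x + 1)
      (n * n * n * (n * n * n) + n * n * n)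
    rw [← hCH x _ a b 0 ha hb (by omega), (hfam x _).2.2.1 (Or.inr (Or.inr le_rfl)),
      (hfam (x + 1) _).2.2.1 (Or.inr (Or.inr le_rfl))]
    rfl
  have hbot : ∀ x, x + 1 < n * n * n → CH x 0 = 0 := by
    intro x hx
    obtain ⟨a, b, ha, hb⟩ := hval (colAt x) x 0 (x + 1) 0
    have han := ha.1
    have hbn := hb.1
    rw [← hCH x _ a b 0 ha hb (by omega)]
    have hne : pos (enc n a b 0) ≠ x := by
      intro he
      have := hcol x a b 0 (by omega) (by omega) (by omega) he
      exact ha.2 b hb.1 (by rw [this]; exact Finset.mem_insert_self _ _)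
    rw [(hfam (x + 1) 0).2.2.2 (by omega) hx rfl a b 0 (by omega) (by omega) (by omega)]
    rcases Nat.eq_zero_or_pos x with h0 | h0
    · rw [(hfam x 0).2.2.1 (Or.inl h0), if_neg (by omega)]
      rfl
    · rw [(hfam x 0).2.2.2 h0 (by omega) rfl a b 0 (by omega) (by omega) (by omega)]
      by_cases g : pos (enc n a b 0) < x
      · rw [if_pos g, if_pos (by omega)]; rfl
      · rw [if_neg g, if_neg (by omega)]; rfl
  have hlast : ∀ x, x + 1 = n * n * n → CH x 0 = 1 := by
    intro x hx
    obtain ⟨a, b, ha, hb⟩ := hval (colAt x) x 0 (x + 1) 0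
    have han := ha.1
    have hbn := hb.1
    rw [← hCH x _ a b 0 ha hb (by omega)]
    have hne : pos (enc n a b 0) ≠ x := by
      intro he
      have := hcol x a b 0 (by omega) (by omega) (by omega) he
      exact ha.2 b hb.1 (by rw [this]; exact Finset.mem_insert_self _ _)
    have hlt := hL.lt (enc n a b 0) (enc_lt (by omega) (by omega) (by omega))
    rw [(hfam (x + 1) 0).2.2.1 (Or.inr (Or.inl hx.ge)),
      (hfam x 0).2.2.2 (by omega) (by omega) rfl a b 0 (by omega) (by omega) (by omega),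
      if_pos (by omega)]
    rfl
  -- discrete Stokes
  have hst : ∀ h X, (∑ x ∈ Finset.range X, CH x h) + CV X h =
      CV 0 h + ∑ x ∈ Finset.range X, CH x (h + 1) := by
    intro h X
    induction X with
    | zero => simp
    | succ X ih =>
      rw [Finset.sum_range_succ, Finset.sum_range_succ]
      have := hsq X h
      linear_combination ih + this - CV X h * h3 + CV X h * h3
  have hconst : ∀ h, (∑ x ∈ Finset.range (n * n * n), CH x 0) =
      ∑ x ∈ Finset.range (n * n * n), CH x h := by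
    intro h
    induction h with
    | zero => rfl
    | succ h ih =>
      have := hst h (n * n * n)
      rw [hV0, hVN, add_zero, zero_add] at this
      rw [ih, this]
  have hfin := hconst (n * n * n * (n * n * n) + n * n * n)
  rw [Finset.sum_eq_zero (fun x _ => htop x)] at hfin
  obtain ⟨M, hM⟩ : ∃ M, n * n * n = M + 1 := ⟨n * n * n - 1, by omega⟩
  rw [hM, Finset.sum_range_succ, Finset.sum_eq_zero (fun x hx => hbot x (by
    rw [Finset.mem_range] at hx; omega)), hlast M hM.symm] at hfin
  exact absurd hfin (by decide)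

end Final


end Pool.Agent.StackQueue
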